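import Mathlib

namespace Pool.Agent.Results.MP_415bd8_co.Q1

/-- Proper edge colouring (only the values on edges of `G` matter). -/
def Proper {V : Type} (G : SimpleGraph V) (c : Sym2 V → ℕ) : Prop :=
  ∀ u v w, G.Adj u v → G.Adj u w → v ≠ w → c s(u, v) ≠ c s(u, w)

noncomputable def numColours {V : Type} (G : SimpleGraph V) (c : Sym2 V → ℕ) : ℕ :=
  (c '' G.edgeSet).ncard

noncomputable def chromIndex {V : Type} (G : SimpleGraph V) : ℕ :=
  sInf {n | ∃ c, Proper G c ∧ numColours G c = n}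

/-- `G` contains a copy of `H` whose edges get pairwise distinct colours. -/
def HasRainbow {V W : Type} (H : SimpleGraph W) (G : SimpleGraph V) (c : Sym2 V → ℕ) : Prop :=
  ∃ f : W → V, Function.Injective f ∧ (∀ a b, H.Adj a b → G.Adj (f a) (f b)) ∧
    Set.InjOn (fun e => c (Sym2.map f e)) H.edgeSet

def pawB (a b : Fin 4) : Bool :=
  (a, b) ∈ [(0, 1), (1, 0), (0, 2), (2, 0), (1, 2), (2, 1), (2, 3), (3, 2)]

def paw : SimpleGraph (Fin 4) where
  Adj a b := pawB a b = true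
  symm := ⟨by decide⟩
  loopless := ⟨by decide⟩

instance : DecidableRel paw.Adj := fun a b => inferInstanceAs (Decidable (pawB a b = true))

def diaB (a b : Fin 4) : Bool := a ≠ b ∧ ¬ (a = 0 ∧ b = 3) ∧ ¬ (a = 3 ∧ b = 0)

abbrev VV (m : ℕ) := Fin 3 ⊕ (Fin 3 × Fin m × Fin 4)

def adj {m : ℕ} : VV m → VV m → Prop
  | .inl _, .inl _ => False
  | .inl h, .inr x => (x.2.2 = 0 ∧ h = x.1) ∨ (x.2.2 = 3 ∧ h = x.1 + 1)
  | .inr x, .inl h => (x.2.2 = 0 ∧ h = x.1) ∨ (x.2.2 = 3 ∧ h = x.1 + 1)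
  | .inr x, .inr y => x.1 = y.1 ∧ x.2.1 = y.2.1 ∧ diaB x.2.2 y.2.2 = true

theorem dia_symm : ∀ a b, diaB a b = true → diaB b a = true := by decide

def GG (m : ℕ) : SimpleGraph (VV m) where
  Adj := adj
  symm := ⟨by
    rintro (a | a) (b | b) h
    · exact h
    · exact h
    · exact h
    · exact ⟨h.1.symm, h.2.1.symm, dia_symm _ _ h.2.2⟩⟩
  loopless := ⟨by
    rintro (a | a) h
    · exact h
    · simp [adj, diaB] at h⟩

theorem rainbow {V : Type} {G : SimpleGraph V} {c : Sym2 V → ℕ} (hc : Proper G c) {a b x y : V}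
    (h1 : G.Adj a b) (h2 : G.Adj a x) (h3 : G.Adj b x) (h4 : G.Adj x y) (ha : a ≠ y) (hb : b ≠ y)
    (hn : ¬ HasRainbow paw G c) : c s(a, b) = c s(x, y) := by
  by_contra hne
  apply hn
  have n1 := h1.ne; have n2 := h2.ne; have n3 := h3.ne; have n4 := h4.ne
  have p1 := hc a b x h1 h2 n3
  have p2 := hc b a x h1.symm h3 n2
  have p3 := hc x a b h2.symm h3.symm n1
  have p4 := hc x a y h2.symm h4 ha
  have p5 := hc x b y h3.symm h4 hb
  rw [Sym2.eq_swap (a := b) (b := a)] at p2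
  rw [Sym2.eq_swap (a := x) (b := a), Sym2.eq_swap (a := x) (b := b)] at p3
  rw [Sym2.eq_swap (a := x) (b := a)] at p4
  rw [Sym2.eq_swap (a := x) (b := b)] at p5
  refine ⟨![a, b, x, y], ?_, ?_, ?_⟩
  · intro i j h
    fin_cases i <;> fin_cases j <;> simp_all [eq_comm]
  · intro i j h
    have := h1.symm; have := h2.symm; have := h3.symm; have := h4.symm
    fin_cases i <;> fin_cases j <;> first | exact absurd h (by decide) | simpa
  · have he : ∀ e ∈ paw.edgeSet, e = s(0, 1) ∨ e = s(0, 2) ∨ e = s(1, 2) ∨ e = s(2, 3) := by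
      intro e he
      induction e using Sym2.ind with
      | _ i j =>
        have : pawB i j = true := he
        clear he; revert this; revert i j; decide
    intro e h e' h' hee
    rcases he e h with rfl | rfl | rfl | rfl <;> rcases he e' h' with rfl | rfl | rfl | rfl <;>
      first | rfl | (exfalso; simp at hee; omega)

theorem wire {m : ℕ} {c : Sym2 (VV m) → ℕ} (hc : Proper (GG m) c)
    (hn : ¬ HasRainbow paw (GG m) c) (s : Fin 3) (i : Fin m) :
    c s(.inl s, .inr (s, i, 0)) = c s(.inl (s + 1), .inr (s, i, 3)) := by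
  have e1 := rainbow hc (a := .inr (s, i, 1)) (b := .inr (s, i, 2)) (x := .inr (s, i, 0))
    (y := .inl s) ⟨rfl, rfl, rfl⟩ ⟨rfl, rfl, rfl⟩ ⟨rfl, rfl, rfl⟩
    (Or.inl ⟨rfl, rfl⟩) (by simp) (by simp) hn
  have e2 := rainbow hc (a := .inr (s, i, 1)) (b := .inr (s, i, 2)) (x := .inr (s, i, 3))
    (y := .inl (s + 1)) ⟨rfl, rfl, rfl⟩ ⟨rfl, rfl, rfl⟩ ⟨rfl, rfl, rfl⟩
    (Or.inr ⟨rfl, rfl⟩) (by simp) (by simp) hn
  rw [Sym2.eq_swap, ← e1, e2, Sym2.eq_swap]

theorem many {m : ℕ} {c : Sym2 (VV m) → ℕ} (hc : Proper (GG m) c)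
    (hn : ¬ HasRainbow paw (GG m) c) : 3 * m ≤ numColours (GG m) c := by
  let φ : Fin 3 × Fin m → ℕ := fun p => c s(.inl p.1, .inr (p.1, p.2, 0))
  have key : ∀ (s : Fin 3) (i j : Fin m), φ (s, i) ≠ φ (s + 1, j) := by
    intro s i j
    show c s(.inl s, .inr (s, i, 0)) ≠ _
    rw [wire hc hn]
    exact hc _ _ _ (Or.inr ⟨rfl, rfl⟩) (Or.inl ⟨rfl, rfl⟩) (by simp)
  have hinj : Function.Injective φ := by
    rintro ⟨s, i⟩ ⟨t, j⟩ h
    have : ∀ s t : Fin 3, t = s ∨ t = s + 1 ∨ s = t + 1 := by decide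
    rcases this s t with rfl | rfl | rfl
    · by_contra hne
      exact hc (.inl t) (.inr (t, i, 0)) (.inr (t, j, 0)) (Or.inl ⟨rfl, rfl⟩) (Or.inl ⟨rfl, rfl⟩)
        (by simpa using hne) h
    · exact absurd h (key _ _ _)
    · exact absurd h.symm (key _ _ _)
  have := Set.ncard_le_ncard (s := Set.range φ) (t := c '' (GG m).edgeSet)
    (by rintro _ ⟨p, rfl⟩; exact ⟨_, (show (GG m).Adj (.inl p.1) (.inr (p.1, p.2, 0)) from
      Or.inl ⟨rfl, rfl⟩), rfl⟩)
    ((Set.toFinite _).image _)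
  rw [Set.ncard_range_of_injective hinj] at this
  simpa [numColours] using this

def tb (a b : Fin 4) : ℕ :=
  if a = b then 0 else if a.val + b.val = 3 then 2 else if (a.val + b.val) % 2 = 0 then 1 else 0

/-- colouring from a wire colour `w` (shifted by 3). -/
def col {m : ℕ} (w : Fin 3 → Fin m → Fin 4 → ℕ) (t : Bool) : VV m → VV m → ℕ
  | .inl _, .inl _ => 0
  | .inl _, .inr x => 3 + w x.1 x.2.1 x.2.2
  | .inr x, .inl _ => 3 + w x.1 x.2.1 x.2.2
  | .inr x, .inr y => if t = true ∧ x.1 = y.1 ∧ x.2.1 = y.2.1 ∧ tb x.2.2 y.2.2 = 2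
      then 3 + w x.1 x.2.1 0 else tb x.2.2 y.2.2

theorem tb_symm : ∀ a b, tb a b = tb b a := by decide
theorem tb_le : ∀ a b, tb a b ≤ 2 := by decide

def colS {m : ℕ} (w : Fin 3 → Fin m → Fin 4 → ℕ) (t : Bool) : Sym2 (VV m) → ℕ :=
  Sym2.lift ⟨col w t, by
    rintro (a | ⟨s, i, a⟩) (b | ⟨s', i', b⟩) <;> simp only [col]
    rw [tb_symm a b]
    by_cases h : s = s' ∧ i = i'
    · obtain ⟨rfl, rfl⟩ := h; rfl
    · rw [if_neg (by tauto), if_neg (by tauto)]⟩

theorem proper {m : ℕ} (w : Fin 3 → Fin m → Fin 4 → ℕ) (t : Bool)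
    (h0 : ∀ s i j, w s i 0 = w s j 0 → i = j) (h3 : ∀ s i j, w s i 3 = w s j 3 → i = j)
    (h03 : ∀ s i j, w (s + 1) i 0 ≠ w s j 3) : Proper (GG m) (colS w t) := by
  rintro (u | ⟨s, i, a⟩) (v | ⟨s', i', b⟩) (x | ⟨s'', i'', d⟩) h1 h2 hne <;>
    simp only [colS, Sym2.lift_mk, col] <;> simp only [GG, adj] at h1 h2
  · rcases h1 with ⟨rfl, rfl⟩ | ⟨rfl, rfl⟩ <;> rcases h2 with ⟨rfl, h⟩ | ⟨rfl, h⟩
    · subst h; intro e; exact hne (by rw [h0 _ _ _ (Nat.add_left_cancel e)])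
    · subst h; intro e; exact h03 _ _ _ (Nat.add_left_cancel e)
    · subst h; intro e; exact h03 _ _ _ (Nat.add_left_cancel e).symm
    · obtain rfl := add_right_cancel h
      intro e; exact hne (by rw [h3 _ _ _ (Nat.add_left_cancel e)])
  · rcases h1 with ⟨rfl, rfl⟩ | ⟨rfl, rfl⟩ <;> rcases h2 with ⟨h, rfl⟩ | ⟨h, rfl⟩ <;> simp_all
  · obtain ⟨rfl, rfl, h2⟩ := h2
    rcases h1 with ⟨rfl, rfl⟩ | ⟨rfl, rfl⟩ <;> fin_cases d <;> simp [diaB, tb] at h2 ⊢ <;> omega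
  · obtain ⟨rfl, rfl, h1⟩ := h1
    rcases h2 with ⟨rfl, rfl⟩ | ⟨rfl, rfl⟩ <;> fin_cases b <;> simp [diaB, tb] at h1 ⊢ <;> omega
  · obtain ⟨rfl, rfl, h1⟩ := h1
    obtain ⟨rfl, rfl, h2⟩ := h2
    cases t <;> fin_cases a <;> fin_cases b <;> fin_cases d <;>
      simp [diaB, tb] at h1 h2 hne ⊢ <;> omega

theorem chi_le (m : ℕ) : chromIndex (GG m) ≤ 2 * m + 3 := by
  let w : Fin 3 → Fin m → Fin 4 → ℕ := fun _ i a => if a = 0 then i.val else m + i.val
  have hp := proper w false (fun s i j h => Fin.ext (by simpa [w] using h))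
    (fun s i j h => Fin.ext (by simpa [w] using h)) (fun s i j => by simp [w]; omega)
  refine le_trans (Nat.sInf_le (m := numColours (GG m) (colS w false)) ⟨_, hp, rfl⟩) ?_
  have := Set.ncard_le_ncard (s := colS w false '' (GG m).edgeSet) (t := Set.Iio (2 * m + 3))
    (by
      rintro _ ⟨e, _, rfl⟩
      induction e using Sym2.ind with
      | _ u v =>
        rcases u with u | ⟨s, i, a⟩ <;> rcases v with v | ⟨s', i', b⟩ <;>
          simp only [colS, Sym2.lift_mk, col, w, Set.mem_Iio]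
        · omega
        · split_ifs <;> omega
        · split_ifs <;> omega
        · have := tb_le a b; simp; omega) (Set.finite_Iio _)
  simpa [numColours] using this

theorem good (m : ℕ) : ∃ c, Proper (GG m) c ∧ ¬ HasRainbow paw (GG m) c := by
  let w : Fin 3 → Fin m → Fin 4 → ℕ := fun s i _ => 3 * i.val + s.val
  refine ⟨colS w true, proper w true (fun s i j h => Fin.ext (by simp [w] at h; omega))
    (fun s i j h => Fin.ext (by simp [w] at h; omega)) (fun s i j => by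
      fin_cases s <;> simp [w] <;> omega), ?_⟩
  rintro ⟨f, hf, ha, hi⟩
  have h01 := ha 0 1 (by decide)
  have h02 := ha 0 2 (by decide)
  have h12 := ha 1 2 (by decide)
  have h23 := ha 2 3 (by decide)
  have n03 : f 0 ≠ f 3 := fun e => absurd (hf e) (by decide)
  have n13 : f 1 ≠ f 3 := fun e => absurd (hf e) (by decide)
  have hne : colS w true s(f 0, f 1) ≠ colS w true s(f 2, f 3) := fun e =>
    absurd (hi (x₁ := s(0, 1)) (show pawB 0 1 = true by decide) (x₂ := s(2, 3))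
      (show pawB 2 3 = true by decide) e) (by decide)
  apply hne
  generalize f 0 = p, f 1 = q, f 2 = r, f 3 = y at *
  rcases p with p | ⟨s, i, a⟩ <;> rcases q with q | ⟨s', i', b⟩ <;> rcases r with r | ⟨s'', i'', d⟩ <;>
    simp only [GG, adj] at h01 h02 h12
  · obtain ⟨rfl, rfl, h⟩ := h12
    rcases h01 with ⟨rfl, _⟩ | ⟨rfl, _⟩ <;> rcases h02 with ⟨rfl, _⟩ | ⟨rfl, _⟩ <;> simp [diaB] at h
  · obtain ⟨rfl, rfl, h⟩ := h02
    rcases h01 with ⟨rfl, _⟩ | ⟨rfl, _⟩ <;> rcases h12 with ⟨rfl, _⟩ | ⟨rfl, _⟩ <;> simp [diaB] at h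
  · obtain ⟨rfl, rfl, h⟩ := h01
    rcases h02 with ⟨rfl, _⟩ | ⟨rfl, _⟩ <;> rcases h12 with ⟨rfl, _⟩ | ⟨rfl, _⟩ <;> simp [diaB] at h
  · obtain ⟨rfl, rfl, h01⟩ := h01
    obtain ⟨rfl, rfl, h02⟩ := h02
    obtain ⟨_, _, h12⟩ := h12
    rcases y with y | ⟨s', i', e⟩ <;> simp only [GG, adj] at h23
    · simp only [colS, Sym2.lift_mk, col, w]
      rcases h23 with ⟨rfl, _⟩ | ⟨rfl, _⟩ <;> fin_cases a <;> fin_cases b <;>
        simp [diaB, tb] at h01 h02 h12 ⊢
    · obtain ⟨rfl, rfl, h23⟩ := h23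
      simp only [colS, Sym2.lift_mk, col, w]
      fin_cases a <;> fin_cases b <;> fin_cases d <;> fin_cases e <;>
        simp [diaB, tb] at h01 h02 h12 h23 n03 n13 ⊢

theorem result (k : ℕ) : ∃ (W V : Type) (_ : Finite W) (_ : Finite V) (H : SimpleGraph W)
    (G : SimpleGraph V),
    (∀ c, Proper G c → numColours G c ≤ chromIndex G + k → HasRainbow H G c) ∧
      ∃ c, Proper G c ∧ ¬ HasRainbow H G c := by
  refine ⟨Fin 4, VV (k + 4), inferInstance, inferInstance, paw, GG (k + 4), ?_, good _⟩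
  intro c hc hn
  by_contra h
  have := many hc h
  have := chi_le (k + 4)
  omega

end Pool.Agent.Results.MP_415bd8_co.Q1
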